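import Pool.Agent.H798.BV.Stm4

/-!
# BV ED: lower bound of the truncated model integral
-/

set_option autoImplicit false

open MeasureTheory Set

namespace Pool.Agent.H764.BV

open Pool.Agent.H798.BV

theorem norm_prod_le {K : ℕ} (l : Fin K → ℂ) (B : Finset (Fin K)) {t : ℝ} (ht : 0 ≤ t) :
    ‖∏ k ∈ B, (1 - (t : ℂ) * l k)‖ ≤ Real.exp (t * ∑ k ∈ B, ‖l k‖) := by
  rw [norm_prod, Finset.mul_sum, Real.exp_sum]
  refine Finset.prod_le_prod (fun k _ => norm_nonneg _) fun k _ => ?_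
  have h1 : ‖1 - (t : ℂ) * l k‖ ≤ 1 + t * ‖l k‖ := by
    refine (norm_sub_le _ _).trans ?_
    rw [norm_one, norm_mul, Complex.norm_real, Real.norm_of_nonneg ht]
  have h2 := Real.add_one_le_exp (t * ‖l k‖)
  linarith

theorem t_ED (h : S_AI2) : S_ED := by
  intro K l B s δ T hδ hT hs hs1
  have hsum : 0 ≤ ∑ k ∈ B, ‖l k‖ := Finset.sum_nonneg fun k _ => norm_nonneg _
  have hre : 0 < s.re := by linarith
  have hn : s.re ≤ ‖s‖ := Complex.re_le_norm s
  have hnpos : 0 < ‖s‖ := hre.trans_le hn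
  obtain ⟨hint, hlow⟩ := h K l B s hre (by linarith)
  obtain ⟨f, hf⟩ : ∃ f : ℝ → ℂ, f = fun t : ℝ =>
    (∏ k ∈ B, (1 - (t : ℂ) * l k)) * Complex.exp (-((t : ℂ) * s)) := ⟨_, rfl⟩
  rw [← hf] at hint hlow ⊢
  -- the lower bound of the whole integral
  have h1 : δ / 2 ≤ ‖∫ t in Ioi (0:ℝ), f t‖ := by
    refine le_trans ?_ hlow
    rw [le_div_iff₀ (by positivity)]
    have h2 : ‖s‖ ^ 2 ≤ 1 := pow_le_one₀ hnpos.le hs1
    nlinarith
  -- the tail
  have hbound : ∀ t : ℝ, 0 ≤ t → ‖f t‖ ≤ Real.exp (-(δ / 2) * t) := by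
    intro t ht
    rw [hf]
    simp only
    rw [norm_mul, Complex.norm_exp]
    have h2 := norm_prod_le l B ht
    have h3 : (-((t : ℂ) * s)).re = -(t * s.re) := by
      simp
    rw [h3]
    calc ‖∏ k ∈ B, (1 - (t : ℂ) * l k)‖ * Real.exp (-(t * s.re))
        ≤ Real.exp (t * ∑ k ∈ B, ‖l k‖) * Real.exp (-(t * s.re)) :=
          mul_le_mul_of_nonneg_right h2 (Real.exp_pos _).le
      _ = Real.exp (t * (∑ k ∈ B, ‖l k‖ - s.re)) := by
          rw [← Real.exp_add]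
          congr 1
          ring
      _ ≤ Real.exp (-(δ / 2) * t) := by
          refine Real.exp_le_exp.2 ?_
          nlinarith
  have hneg : -(δ / 2) < 0 := by linarith
  have htail : ‖∫ t in Ioi T, f t‖ ≤ 2 / δ * Real.exp (-(δ * T / 2)) := by
    have h2 : ‖∫ t in Ioi T, f t‖ ≤ ∫ t in Ioi T, Real.exp (-(δ / 2) * t) := by
      refine norm_integral_le_of_norm_le (integrableOn_exp_mul_Ioi hneg T) ?_
      filter_upwards [ae_restrict_mem measurableSet_Ioi] with t ht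
      exact hbound t (hT.trans (le_of_lt ht))
    refine h2.trans (le_of_eq ?_)
    rw [integral_exp_mul_Ioi hneg T]
    have h3 : -(δ / 2) * T = -(δ * T / 2) := by ring
    rw [h3]
    field_simp
  have hadd : (∫ t in (0:ℝ)..T, f t) + ∫ t in Ioi T, f t = ∫ t in Ioi (0:ℝ), f t :=
    intervalIntegral.integral_interval_add_Ioi hint
      (hint.mono_set (Ioi_subset_Ioi hT))
  have h4 : ‖∫ t in Ioi (0:ℝ), f t‖ ≤ ‖∫ t in (0:ℝ)..T, f t‖ + ‖∫ t in Ioi T, f t‖ := by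
    rw [← hadd]
    exact norm_add_le _ _
  linarith

end Pool.Agent.H764.BV
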